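import Mathlib

/-!
# The generalized van der Waerden game: a bound on the number of moves depending only on `|S|`

Maker and Breaker alternately claim natural numbers and Maker wants a copy `a S + b` of `S`.
Let `n = |S|` and let `d` be a dimension such that every two-colouring of `[n]^d` has a
monochromatic combinatorial line (Hales-Jewett theorem). For `T > max S` the map
`x ↦ ∑ i, T ^ i * s_{x i}` is injective on `[n]^d` and maps combinatorial lines to copies of `S`.
So Maker can play the Hales-Jewett game on the image, which Maker wins as first player by the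
strategy stealing argument, after at most `n ^ d` own moves. The number `n ^ d` depends only
on `n`.
-/

set_option autoImplicit false

namespace Pool.Agent.Results.MP_3e1131_co.UniformBound

/-! ### The game -/

/-- The set `M` contains a copy `a S + b` of `S`, for some integers `a ≥ 1` and `b`. -/
def HasCopy (S : Finset ℕ) (M : Set ℕ) : Prop :=
  ∃ a b : ℤ, 1 ≤ a ∧ ∀ s ∈ S, ∃ m ∈ M, (m : ℤ) = a * s + b

/-- A strategy `σ` of Maker is a function giving Maker's next selection, depending on the list of
the selections of Breaker made so far (the first one first). If Breaker selects `b 0`, `b 1`, ...,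
then the selection number `i` of Maker (starting with number `0`) is `makerMove σ b i`. -/
def makerMove (σ : List ℕ → ℕ) (b : ℕ → ℕ) (i : ℕ) : ℕ := σ ((List.range i).map b)

/-- `σ` is an `N`-move strategy of Maker for `S`: against every play `b 0, b 1, ...` of Breaker
in which Breaker selects only numbers not claimed before, Maker obtains a copy of `S` with the
first `k` selections, for some `k ≤ N`, and these `k` selections are numbers not claimed before.
(Maker's selection `j` is made before Breaker's selection `j`.) -/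
def IsMoveStrategy (S : Finset ℕ) (N : ℕ) (σ : List ℕ → ℕ) : Prop :=
  ∀ b : ℕ → ℕ,
    (∀ i, i + 1 < N → (∀ j ≤ i, b i ≠ makerMove σ b j) ∧ ∀ j < i, b i ≠ b j) →
    ∃ k ≤ N, (∀ i < k, (∀ j < i, makerMove σ b i ≠ makerMove σ b j) ∧
        ∀ j < i, makerMove σ b i ≠ b j) ∧
      HasCopy S {m | ∃ i < k, m = makerMove σ b i}

/-! ### Positions -/

/-- Maker, to move, can complete a copy of `S` with at most `n` further selections; `M` and `B`
are the sets claimed by Maker and Breaker. -/
def Wins (S : Finset ℕ) : ℕ → Set ℕ → Set ℕ → Prop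
  | 0, M, _ => HasCopy S M
  | n + 1, M, B => HasCopy S M ∨ ∃ x, x ∉ M ∧ x ∉ B ∧
      ∀ y, y ∉ insert x M → y ∉ B → Wins S n (insert x M) (insert y B)

lemma HasCopy.mono {S : Finset ℕ} {M M' : Set ℕ} (h : HasCopy S M) (hM : M ⊆ M') :
    HasCopy S M' := by
  obtain ⟨a, b, ha, h⟩ := h
  refine ⟨a, b, ha, fun s hs => ?_⟩
  obtain ⟨m, hm, h⟩ := h s hs
  exact ⟨m, hM hm, h⟩

lemma Wins.succ {S : Finset ℕ} : ∀ {n : ℕ} {M B : Set ℕ}, Wins S n M B → Wins S (n + 1) M B
  | 0, _, _, h => Or.inl h
  | n + 1, M, B, h => by
    rcases h with h | ⟨x, hx, hx', h⟩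
    · exact Or.inl h
    · exact Or.inr ⟨x, hx, hx', fun y hy hy' => (h y hy hy').succ⟩

lemma makerMove_succ {σ : List ℕ → ℕ} {b : ℕ → ℕ} {σ' : List ℕ → ℕ}
    (h : ∀ l, σ (b 0 :: l) = σ' l) (i : ℕ) :
    makerMove σ b (i + 1) = makerMove σ' (fun j => b (j + 1)) i := by
  unfold makerMove
  rw [List.range_succ_eq_map, List.map_cons, h, List.map_map]
  rfl

open Classical in
/-- From a winning position there is a strategy for the rest of the game. -/
lemma Wins.exists_strategy {S : Finset ℕ} : ∀ (n : ℕ) (M B : Set ℕ), M.Finite → B.Finite →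
    Wins S n M B →
    ∃ σ : List ℕ → ℕ, ∀ b : ℕ → ℕ,
      (∀ i, i + 1 < n → b i ∉ M ∧ b i ∉ B ∧ (∀ j ≤ i, b i ≠ makerMove σ b j) ∧
        ∀ j < i, b i ≠ b j) →
      ∃ k ≤ n, (∀ i < k, makerMove σ b i ∉ M ∧ makerMove σ b i ∉ B ∧
        (∀ j < i, makerMove σ b i ≠ makerMove σ b j) ∧ ∀ j < i, makerMove σ b i ≠ b j) ∧
        HasCopy S (M ∪ {m | ∃ i < k, m = makerMove σ b i}) := by
  intro n
  induction n with
  | zero =>
    intro M B _ _ h
    refine ⟨fun _ => 0, fun b _ => ⟨0, le_rfl, by simp, ?_⟩⟩
    exact HasCopy.mono h Set.subset_union_left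
  | succ n ih =>
    intro M B hM hB h
    rcases h with h | ⟨x, hx, hx', h⟩
    · refine ⟨fun _ => 0, fun b _ => ⟨0, by omega, by simp, ?_⟩⟩
      exact HasCopy.mono h Set.subset_union_left
    · rcases Nat.eq_zero_or_pos n with hn | hn
      · subst hn
        obtain ⟨y, hy⟩ : ∃ y, y ∉ insert x M ∪ B :=
          Set.Finite.exists_notMem ((hM.insert x).union hB)
        rw [Set.mem_union, not_or] at hy
        have h1 : HasCopy S (insert x M) := h y hy.1 hy.2
        refine ⟨fun _ => x, fun b _ => ⟨1, le_rfl, ?_, ?_⟩⟩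
        · intro i hi
          obtain rfl : i = 0 := by omega
          exact ⟨hx, hx', by simp, by simp⟩
        · refine h1.mono ?_
          rintro z (rfl | hz)
          · exact Or.inr ⟨0, one_pos, rfl⟩
          · exact Or.inl hz
      · have ih' : ∀ y, ∃ σ : List ℕ → ℕ, y ∉ insert x M → y ∉ B → ∀ b : ℕ → ℕ,
            (∀ i, i + 1 < n → b i ∉ insert x M ∧ b i ∉ insert y B ∧
              (∀ j ≤ i, b i ≠ makerMove σ b j) ∧ ∀ j < i, b i ≠ b j) →
            ∃ k ≤ n, (∀ i < k, makerMove σ b i ∉ insert x M ∧ makerMove σ b i ∉ insert y B ∧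
              (∀ j < i, makerMove σ b i ≠ makerMove σ b j) ∧ ∀ j < i, makerMove σ b i ≠ b j) ∧
              HasCopy S (insert x M ∪ {m | ∃ i < k, m = makerMove σ b i}) := by
          intro y
          by_cases h1 : y ∉ insert x M ∧ y ∉ B
          · obtain ⟨σ, hσ⟩ := ih (insert x M) (insert y B) (hM.insert x) (hB.insert y)
              (h y h1.1 h1.2)
            exact ⟨σ, fun _ _ => hσ⟩
          · exact ⟨fun _ => 0, fun h2 h3 => absurd ⟨h2, h3⟩ h1⟩
        choose σ' hσ' using ih'
        let σ : List ℕ → ℕ := fun l => match l with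
          | [] => x
          | y :: l => σ' y l
        refine ⟨σ, fun b hb => ?_⟩
        have m0 : makerMove σ b 0 = x := rfl
        have ms : ∀ i, makerMove σ b (i + 1) = makerMove (σ' (b 0)) (fun j => b (j + 1)) i :=
          fun i => makerMove_succ (fun l => rfl) i
        have hb0 := hb 0 (by omega)
        have hb0x : b 0 ∉ insert x M := by
          rintro (h1 | h1)
          · exact hb0.2.2.1 0 le_rfl (by rw [m0]; exact h1)
          · exact hb0.1 h1
        obtain ⟨k, hk, h1, h2⟩ := hσ' (b 0) hb0x hb0.2.1 (fun j => b (j + 1)) (by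
          intro i hi
          have hbi := hb (i + 1) (by omega)
          refine ⟨?_, ?_, ?_, ?_⟩
          · rintro (h1 | h1)
            · exact hbi.2.2.1 0 (by omega) (by rw [m0]; exact h1)
            · exact hbi.1 h1
          · rintro (h1 | h1)
            · exact hbi.2.2.2 0 (by omega) h1
            · exact hbi.2.1 h1
          · intro j hj
            rw [← ms]
            exact hbi.2.2.1 (j + 1) (by omega)
          · intro j hj
            exact hbi.2.2.2 (j + 1) (by omega))
        refine ⟨k + 1, by omega, ?_, ?_⟩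
        · intro i hi
          rcases i with _ | i
          · rw [m0]
            exact ⟨hx, hx', by simp, by simp⟩
          · obtain ⟨h3, h4, h5, h6⟩ := h1 i (by omega)
            rw [ms]
            refine ⟨fun h => h3 (Or.inr h), fun h => h4 (Or.inr h), ?_, ?_⟩
            · intro j hj
              rcases j with _ | j
              · rw [m0]
                exact fun h => h3 (Or.inl h)
              · rw [ms]
                exact h5 j (by omega)
            · intro j hj
              rcases j with _ | j
              · exact fun h => h4 (Or.inl h)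
              · exact h6 j (by omega)
        · refine h2.mono ?_
          rintro z ((rfl | hz) | ⟨i, hi, rfl⟩)
          · exact Or.inr ⟨0, by omega, rfl⟩
          · exact Or.inl hz
          · exact Or.inr ⟨i + 1, by omega, (ms i).symm⟩

/-! ### Finite Maker-Breaker games and strategy stealing -/

section Finite

variable {V : Type} [DecidableEq V]

mutual
/-- The player owning `X` is to move and can reach a final set with property `P`; `R` is the set
of free cells, `k` their number. -/
def W1 (P : Finset V → Prop) : ℕ → Finset V → Finset V → Prop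
  | 0, X, _ => P X
  | k + 1, X, R => ∃ x ∈ R, W2 P k (insert x X) (R.erase x)
/-- The same if the opponent is to move. -/
def W2 (P : Finset V → Prop) : ℕ → Finset V → Finset V → Prop
  | 0, X, _ => P X
  | k + 1, X, R => ∀ y ∈ R, W1 P k X (R.erase y)
end

variable {P : Finset V → Prop}

/-- An additional cell does not hurt. -/
lemma extra (hP : ∀ X Y : Finset V, X ⊆ Y → P X → P Y) : ∀ k : ℕ,
    (∀ X R z, z ∈ R → R.card = k + 1 → W2 P (k + 1) X R → W2 P k (insert z X) (R.erase z)) ∧
    (∀ X R z, z ∈ R → R.card = k + 1 → W1 P (k + 1) X R → W1 P k (insert z X) (R.erase z)) ∧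
    (∀ X R, R.card = k → W2 P k X R → W1 P k X R) := by
  intro k
  induction k with
  | zero =>
    refine ⟨?_, ?_, ?_⟩
    · intro X R z hz _ h
      have h1 := h z hz
      simp only [W1] at h1
      simp only [W2]
      exact hP _ _ (Finset.subset_insert z X) h1
    · intro X R z hz hc h
      obtain ⟨x, hx, h⟩ := h
      have hxz : x = z := by
        obtain ⟨w, hw⟩ := Finset.card_eq_one.1 hc
        rw [hw, Finset.mem_singleton] at hx hz
        rw [hx, hz]
      subst hxz
      simpa [W1, W2] using h
    · intro X R _ h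
      simpa [W1, W2] using h
  | succ k ih =>
    obtain ⟨ihb, iha, ihB⟩ := ih
    have hB : ∀ X R, R.card = k + 1 → W2 P (k + 1) X R → W1 P (k + 1) X R := by
      intro X R hc h
      obtain ⟨z, hz⟩ : R.Nonempty := by rw [← Finset.card_pos]; omega
      exact ⟨z, hz, ihb X R z hz hc h⟩
    refine ⟨?_, ?_, hB⟩
    · intro X R z hz hc h y hy
      rw [Finset.mem_erase] at hy
      have h1 : W1 P (k + 1) X (R.erase y) := h y hy.2
      have h2 := iha X (R.erase y) z (Finset.mem_erase.2 ⟨hy.1.symm, hz⟩)
        (by rw [Finset.card_erase_of_mem hy.2]; omega) h1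
      rwa [Finset.erase_right_comm] at h2
    · intro X R z hz hc h
      obtain ⟨x, hx, h⟩ := h
      by_cases hxz : x = z
      · subst hxz
        exact hB _ _ (by rw [Finset.card_erase_of_mem hx]; omega) h
      · refine ⟨x, Finset.mem_erase.2 ⟨hxz, hx⟩, ?_⟩
        have h2 := ihb (insert x X) (R.erase x) z (Finset.mem_erase.2 ⟨fun h => hxz h.symm, hz⟩)
          (by rw [Finset.card_erase_of_mem hx]; omega) h
        rwa [Finset.erase_right_comm, Finset.insert_comm] at h2

/-- If a player cannot reach `P`, then the opponent can. -/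
lemma determined [Fintype V] (hR : ∀ X : Finset V, P X ∨ P Xᶜ) : ∀ (k : ℕ) (X Y R : Finset V),
    R.card = k → Y = (X ∪ R)ᶜ → Disjoint X R →
    (¬ W1 P k X R → W2 P k Y R) ∧ (¬ W2 P k X R → W1 P k Y R) := by
  intro k
  induction k with
  | zero =>
    intro X Y R hc hY _
    rw [Finset.card_eq_zero] at hc
    subst hc
    rw [Finset.union_empty] at hY
    subst hY
    simp only [W1, W2]
    exact ⟨fun h => (hR X).resolve_left h, fun h => (hR X).resolve_left h⟩
  | succ k ih =>
    intro X Y R hc hY hd
    constructor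
    · intro h x hx
      have h1 : ¬ W2 P k (insert x X) (R.erase x) := fun h2 => h ⟨x, hx, h2⟩
      refine (ih (insert x X) Y (R.erase x) (by rw [Finset.card_erase_of_mem hx]; omega) ?_
        ?_).2 h1
      · rw [hY]
        congr 1
        ext v
        simp only [Finset.mem_union, Finset.mem_insert, Finset.mem_erase]
        by_cases hv : v = x
        · subst hv; simp [hx]
        · simp [hv]
      · rw [Finset.disjoint_left] at hd ⊢
        intro v hv
        rw [Finset.mem_insert] at hv
        rw [Finset.mem_erase]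
        rintro ⟨h3, h4⟩
        rcases hv with hv | hv
        · exact h3 hv
        · exact hd hv h4
    · intro h
      have h1 : ∃ y ∈ R, ¬ W1 P k X (R.erase y) := by
        by_contra hn
        push Not at hn
        exact h hn
      obtain ⟨y, hy, h1⟩ := h1
      refine ⟨y, hy, ?_⟩
      refine (ih X (insert y Y) (R.erase y) (by rw [Finset.card_erase_of_mem hy]; omega) ?_
        ?_).1 h1
      · rw [hY]
        ext v
        simp only [Finset.mem_union, Finset.mem_insert, Finset.mem_erase, Finset.mem_compl]
        by_cases hv : v = y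
        · subst hv
          have h3 : v ∉ X := fun h => (Finset.disjoint_left.1 hd) h hy
          simp [h3]
        · simp [hv]
      · exact hd.mono_right (Finset.erase_subset _ _)

/-- Strategy stealing. -/
lemma steal [Fintype V] (hP : ∀ X Y : Finset V, X ⊆ Y → P X → P Y) (hR : ∀ X : Finset V, P X ∨ P Xᶜ) :
    W1 P (Fintype.card V) ∅ Finset.univ := by
  by_contra h
  have h1 := (determined hR (Fintype.card V) ∅ ∅ Finset.univ Finset.card_univ (by simp)
    (by simp)).1 h
  exact h ((extra hP _).2.2 ∅ Finset.univ Finset.card_univ h1)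

/-- Playing the finite game inside the numbers. -/
lemma transfer {S : Finset ℕ} (ψ : V → ℕ) (hψ : Function.Injective ψ)
    (hP : ∀ X Y : Finset V, X ⊆ Y → P X → P Y)
    (hS : ∀ X : Finset V, P X → HasCopy S (ψ '' X)) :
    ∀ (k : ℕ) (X R : Finset V) (M B : Set ℕ), R.card = k → ψ '' X ⊆ M →
      (∀ r ∈ R, ψ r ∉ M ∧ ψ r ∉ B) → W1 P k X R → Wins S k M B := by
  intro k
  induction k using Nat.strong_induction_on with
  | _ k ih =>
  rcases k with _ | k
  · intro X R M B _ hM _ h
    simp only [W1] at h
    exact (hS X h).mono hM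
  · intro X R M B hc hM hR h
    obtain ⟨x, hx, h⟩ := h
    refine Or.inr ⟨ψ x, (hR x hx).1, (hR x hx).2, fun y hy hy' => ?_⟩
    have hM' : ψ '' (insert x X : Finset V) ⊆ insert (ψ x) M := by
      rintro _ ⟨v, hv, rfl⟩
      rw [Finset.mem_coe, Finset.mem_insert] at hv
      rcases hv with rfl | hv
      · exact Or.inl rfl
      · exact Or.inr (hM ⟨v, hv, rfl⟩)
    have hc' : (R.erase x).card = k := by rw [Finset.card_erase_of_mem hx]; omega
    by_cases hyR : ∃ r ∈ R.erase x, ψ r = y
    · obtain ⟨r, hr, rfl⟩ := hyR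
      rcases k with _ | k
      · rw [Finset.card_eq_zero] at hc'
        rw [hc'] at hr
        simp at hr
      · have h2 : W1 P k (insert x X) ((R.erase x).erase r) := h r hr
        refine (ih k (by omega) (insert x X) ((R.erase x).erase r) _ _
          (by rw [Finset.card_erase_of_mem hr]; omega) hM' ?_ h2).succ
        intro r' hr'
        rw [Finset.mem_erase, Finset.mem_erase] at hr'
        refine ⟨?_, ?_⟩
        · rintro (h1 | h1)
          · exact hr'.2.1 (hψ h1)
          · exact (hR r' hr'.2.2).1 h1
        · rintro (h1 | h1)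
          · exact hr'.1 (hψ h1)
          · exact (hR r' hr'.2.2).2 h1
    · push Not at hyR
      refine ih k (by omega) (insert x X) (R.erase x) _ _ hc' hM' ?_
        ((extra hP k).2.2 _ _ hc' h)
      intro r hr
      rw [Finset.mem_erase] at hr
      refine ⟨?_, ?_⟩
      · rintro (h1 | h1)
        · exact hr.1 (hψ h1)
        · exact (hR r hr.2).1 h1
      · rintro (h1 | h1)
        · exact hyR r (Finset.mem_erase.2 hr) h1
        · exact (hR r hr.2).2 h1

end Finite

/-! ### The Hales-Jewett game -/

/-- The number of cells of a Hales-Jewett cube. -/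
lemma main (n : ℕ) : ∃ N : ℕ, ∀ S : Finset ℕ, S.card = n → Wins S N ∅ ∅ := by
  classical
  obtain ⟨ι, hι, hHJ⟩ := Combinatorics.Line.exists_mono_in_high_dimension (Fin n) Bool
  refine ⟨Fintype.card (ι → Fin n), fun S hS => ?_⟩
  let e : Fin n ≃ S := (S.equivFinOfCardEq hS).symm
  let T : ℕ := S.sup id + 1
  have hT : ∀ s ∈ S, s < T := fun s hs => Nat.lt_succ_of_le (Finset.le_sup (f := id) hs)
  let g : ι ≃ Fin (Fintype.card ι) := Fintype.equivFin ι
  let ψ : (ι → Fin n) → ℕ := fun x => ∑ i, (e (x i) : ℕ) * T ^ (g i : ℕ)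
  have hψ : Function.Injective ψ := by
    intro x y hxy
    have h1 : ∀ z : ι → Fin n, ψ z = (finFunctionFinEquiv (m := T) (n := Fintype.card ι)
        (fun j => ⟨(e (z (g.symm j)) : ℕ), hT _ (e (z (g.symm j))).2⟩) : ℕ) := by
      intro z
      rw [finFunctionFinEquiv_apply]
      change ∑ i, (e (z i) : ℕ) * T ^ (g i : ℕ) = _
      rw [← Equiv.sum_comp g.symm]
      simp
    rw [h1 x, h1 y] at hxy
    have h2 := finFunctionFinEquiv.injective (Fin.ext hxy)
    funext i
    have h3 := congrFun h2 (g i)
    simp only [Equiv.symm_apply_apply, Fin.mk.injEq] at h3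
    exact e.injective (Subtype.ext h3)
  let P : Finset (ι → Fin n) → Prop := fun X =>
    ∃ l : Combinatorics.Line (Fin n) ι, ∀ a, l a ∈ X
  have hP : ∀ X Y : Finset (ι → Fin n), X ⊆ Y → P X → P Y :=
    fun X Y h ⟨l, hl⟩ => ⟨l, fun a => h (hl a)⟩
  have hR : ∀ X : Finset (ι → Fin n), P X ∨ P Xᶜ := by
    intro X
    obtain ⟨l, c, hc⟩ := hHJ (fun x => decide (x ∈ X))
    cases c
    · right
      exact ⟨l, fun a => by simpa using hc a⟩
    · left
      exact ⟨l, fun a => by simpa using hc a⟩
  have hcopy : ∀ X : Finset (ι → Fin n), P X → HasCopy S (ψ '' X) := by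
    rintro X ⟨l, hl⟩
    refine ⟨∑ i, if l.idxFun i = none then (T : ℤ) ^ (g i : ℕ) else 0,
      ∑ i, ((l.idxFun i).elim 0 fun c => ((e c : ℕ) : ℤ)) * (T : ℤ) ^ (g i : ℕ), ?_, ?_⟩
    · obtain ⟨i₀, hi₀⟩ := l.proper
      have h1 : (1 : ℤ) ≤ (T : ℤ) ^ (g i₀ : ℕ) := by
        have : 0 < T ^ (g i₀ : ℕ) := pow_pos (Nat.succ_pos _) _
        exact_mod_cast this
      refine h1.trans ?_
      have h2 := Finset.single_le_sum (f := fun i => if l.idxFun i = none then
        (T : ℤ) ^ (g i : ℕ) else 0) (s := Finset.univ) (fun i _ => by positivity)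
        (Finset.mem_univ i₀)
      simpa [hi₀] using h2
    · intro s hs
      refine ⟨ψ (l (e.symm ⟨s, hs⟩)), ⟨_, hl _, rfl⟩, ?_⟩
      simp only [ψ]
      push_cast
      rw [Finset.sum_mul, ← Finset.sum_add_distrib]
      refine Finset.sum_congr rfl fun i _ => ?_
      rcases h : l.idxFun i with _ | c
      · simp [h, mul_comm]
      · simp [h]
  exact transfer ψ hψ hP hcopy _ ∅ Finset.univ ∅ ∅ Finset.card_univ (by simp) (by simp)
    (steal hP hR)

/-- **Result.** There is a function `C` such that for every `n` and every set `S` of `n` natural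
numbers Maker has a `C n`-move strategy for `S`. -/
theorem result : ∃ C : ℕ → ℕ, ∀ n : ℕ, ∀ S : Finset ℕ, S.card = n →
    ∃ σ : List ℕ → ℕ, IsMoveStrategy S (C n) σ := by
  choose C hC using main
  refine ⟨C, fun n S hS => ?_⟩
  obtain ⟨σ, hσ⟩ := (hC n S hS).exists_strategy (C n) ∅ ∅ Set.finite_empty Set.finite_empty
  refine ⟨σ, fun b hb => ?_⟩
  obtain ⟨k, hk, h1, h2⟩ := hσ b (fun i hi => ⟨by simp, by simp, hb i hi⟩)
  exact ⟨k, hk, fun i hi => (h1 i hi).2.2, by simpa using h2⟩

end Pool.Agent.Results.MP_3e1131_co.UniformBound
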